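import Pool.Agent.Run7.h479.XX.Cls

/-!
# The Ramanujan bound in weight 3/2 by one-sided bounds for weighted prime sums

In the notation of the problem let `f` be a Hecke eigenform in `S^{(1)}_{3/2}(24p, χ)` with Shimura lift `F` of weight `2`,
`β_{ℓ,1}, β_{ℓ,2}` the zeros of the Hecke polynomials `X² - λ_ℓ X + ψ(ℓ) ℓ` of `F`, and `D` a set of squarefree `t` of fixed sign
and fixed local square classes at the primes dividing `6p`; let `χ_t` be the character of the twist. By the theorem of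
Waldspurger `|a_f(t)|² = c t^{1/2} L(1/2, F ⊗ χ_t)` for `t ∈ D`, with `c ≥ 0`; let `c > 0` (otherwise the `a_f(t)` are `0`). For
`γ > π/2` and `T > 0` put

`S_t(T) = ∑_ℓ ∑_{k ≥ 1} χ_t(ℓ)^k (β_{ℓ,1}^k + β_{ℓ,2}^k) / (k ℓ^k) · exp(iγ k log ℓ / T) / Γ(1 + k log ℓ / T)`.

The series converges absolutely, although the centre is outside the region of convergence of the Euler product.
Without any hypothesis on zeros:

* `c t^{1/2} exp(Re S_t(T)) → |a_f(t)|²` for `T → ∞`, `t ∈ D`;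
* for every `ε > 0` the bound `|a_f(t)| ≤ C t^{1/4+ε}` for all `t ∈ D` holds with some `C` if and only if there is a `C'` such
  that for every `t ∈ D` and all sufficiently large `T` (depending on `t`)

  `Re S_t(T) ≤ 2ε log t + C'`;

* it is enough to have this for every `t ∈ D` along one sequence `T_k → ∞`, which may depend on `t`.

So Q1 for the eigenforms is a statement on one-sided bounds for these sums over the primes, for all `ε > 0`.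

The law for Euler products with complex coefficients at an arbitrary real point is due to helper453 (library
`Pool.Agent.Run7.h453.CX`, used in `MP_46b841_nt.ChebotarevAtZero`).
-/

set_option autoImplicit false

open Filter Topology Set Run7.h479.XX

namespace Pool.Agent.Results.MP_af11aa_nt.OneSidedPrimeSums

/-- The zeros `β_{ℓ,1}, β_{ℓ,2}` of the Hecke polynomials of an eigenform of weight `2` with eigenvalues `λ_ℓ` and character
`ψ`, for `ℓ` outside the finite set `S`; all of absolute value at most `√ℓ`. -/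
structure Eigenform {M : ℕ} (lam : Nat.Primes → ℂ) (ψ : DirichletCharacter ℂ M)
    (S : Finset Nat.Primes) (β : Nat.Primes → Fin 2 → ℂ) : Prop where
  good : ∀ ℓ ∉ S, β ℓ 0 + β ℓ 1 = lam ℓ ∧ β ℓ 0 * β ℓ 1 = ψ (ℓ : ℕ) * ((ℓ : ℕ) : ℂ)
  norm : ∀ ℓ j, ‖β ℓ j‖ ≤ √(ℓ : ℕ)

/-- `L(s) = L(F ⊗ χ, s)` in the normalisation with the centre at `s = 1`: the Euler product for `Re s > 3/2`,
analytic at the points of the real interval `[1, 3/2]`. -/
structure IsTwist {N : ℕ} (β : Nat.Primes → Fin 2 → ℂ) (χ : DirichletCharacter ℂ N) (L : ℂ → ℂ) :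
    Prop where
  euler : ∀ s : ℂ, 3 / 2 < s.re → L s = ∏' ℓ : Nat.Primes, ∏ j,
    (1 - χ (ℓ : ℕ) * β ℓ j * ((ℓ : ℕ) : ℂ) ^ (-s))⁻¹
  analytic : ∀ x : ℝ, 1 ≤ x → x ≤ 3 / 2 → AnalyticAt ℂ L (x : ℂ)

/-- The weight `exp(iγ t / T) / Γ(1 + t / T)`. -/
noncomputable def weight (γ T t : ℝ) : ℂ :=
  Complex.exp ((γ * (t / T) : ℝ) * Complex.I) * ((Real.Gamma (1 + t / T))⁻¹ : ℝ)

/-- The term of `S_χ(T)` for `ℓ = x.1` and `k = x.2`. -/
noncomputable def term {N : ℕ} (β : Nat.Primes → Fin 2 → ℂ) (χ : DirichletCharacter ℂ N) (γ T : ℝ)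
    (x : Nat.Primes × ℕ+) : ℂ :=
  χ (x.1 : ℕ) ^ (x.2 : ℕ) * (β x.1 0 ^ (x.2 : ℕ) + β x.1 1 ^ (x.2 : ℕ)) /
    (((x.2 : ℕ) : ℂ) * ((x.1 : ℕ) : ℂ) ^ (x.2 : ℕ)) * weight γ T ((x.2 : ℕ) * Real.log (x.1 : ℕ))

/-- `S_χ(T)` -/
noncomputable def sum {N : ℕ} (β : Nat.Primes → Fin 2 → ℂ) (χ : DirichletCharacter ℂ N) (γ T : ℝ) :
    ℂ := ∑' x, term β χ γ T x

section proof

variable {M : ℕ} {lam : Nat.Primes → ℂ} {ψ : DirichletCharacter ℂ M} {S : Finset Nat.Primes}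
  {β : Nat.Primes → Fin 2 → ℂ} {N : ℕ} {χ : DirichletCharacter ℂ N} {L : ℂ → ℂ}

theorem term_eq (γ T : ℝ) (x : Nat.Primes × ℕ+) :
    Pool.Agent.Run7.h453.CX.eterm (fun ℓ : Nat.Primes => ((ℓ : ℕ) : ℝ))
      (fun ℓ (k : ℕ+) => ∑ j, (χ (ℓ : ℕ) * β ℓ j) ^ (k : ℕ)) 1 γ T x = term β χ γ T x := by
  have hn : (0 : ℝ) < ((x.1 : ℕ) : ℝ) := by exact_mod_cast x.1.2.pos
  have e1 : Real.exp (-(1 * (((x.2 : ℕ) : ℝ) * Real.log (x.1 : ℕ)))) =
      (((x.1 : ℕ) : ℝ) ^ (x.2 : ℕ))⁻¹ := by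
    rw [← Real.rpow_natCast, ← Real.rpow_neg hn.le, Real.rpow_def_of_pos hn]
    congr 1
    ring
  unfold term Pool.Agent.Run7.h453.CX.eterm Pool.Agent.Run7.h453.CX.rterm
    Pool.Agent.Run7.h453.CX.cEs Pool.Agent.Run7.h453.CX.cE Pool.Agent.Run7.h453.CX.lamE
    Pool.Agent.W189.ML.om weight
  rw [e1]
  simp only [Fin.sum_univ_two]
  push_cast
  rw [mul_pow, mul_pow, ← mul_add, div_mul_eq_div_div]
  ring

theorem Eigenform.norm' (h : Eigenform lam ψ S β) (ℓ : Nat.Primes) (j : Fin 2) :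
    ‖χ (ℓ : ℕ) * β ℓ j‖ ≤ ((ℓ : ℕ) : ℝ) ^ (1 / 2 : ℝ) := by
  rw [← Real.sqrt_eq_rpow, norm_mul]
  calc ‖χ (ℓ : ℕ)‖ * ‖β ℓ j‖ ≤ 1 * √(ℓ : ℕ) :=
        mul_le_mul (χ.norm_le_one _) (h.norm ℓ j) (norm_nonneg _) zero_le_one
    _ = _ := one_mul _

theorem two_le (ℓ : Nat.Primes) : (2 : ℝ) ≤ ((ℓ : ℕ) : ℝ) := by exact_mod_cast ℓ.2.two_le

theorem summable_primes (σ : ℝ) (hσ : 1 < σ) : Summable fun ℓ : Nat.Primes => ((ℓ : ℕ) : ℝ) ^ (-σ) :=
  (Nat.Primes.summable_rpow (r := -σ)).2 (by linarith)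

theorem term_summable (h : Eigenform lam ψ S β) (χ : DirichletCharacter ℂ N) (γ : ℝ) {T : ℝ}
    (hT : 0 < T) : Summable fun x => ‖term β χ γ T x‖ := by
  have E' := Pool.Agent.Run7.h453.CX.ed_of (N := 2) (κ := 1 / 2)
    (q := fun ℓ : Nat.Primes => ((ℓ : ℕ) : ℝ)) (a := fun ℓ j => χ (ℓ : ℕ) * β ℓ j) two_le
    summable_primes (fun ℓ j => h.norm' ℓ j)
  exact (E'.eterm_summable 1 γ hT).congr fun x => by rw [term_eq]

theorem sum_lim (h : Eigenform lam ψ S β) (hL : IsTwist β χ L) {γ : ℝ} (hγ : Real.pi / 2 < γ) :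
    Tendsto (fun T : ℝ => Complex.exp (sum β χ γ T)) atTop (𝓝 (L 1)) := by
  have han := (hL.analytic 1 le_rfl (by norm_num)).continuousAt
  rw [Complex.ofReal_one] at han
  have h1 := law_lim (N := 2) (q := fun ℓ : Nat.Primes => ((ℓ : ℕ) : ℝ))
    (a := fun ℓ j => χ (ℓ : ℕ) * β ℓ j) (κ := 1 / 2) (σ₀ := 1) (F := L) two_le summable_primes
    (fun ℓ j => h.norm' ℓ j) (fun x hx hx' => (hL.analytic x hx (by linarith)).meromorphicAt)
    (by norm_num) (fun s hs => by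
      rw [hL.euler s (by norm_num at hs ⊢; exact hs)]
      simp) (r := 0) (A := L 1) (by
        simpa using han.tendsto.mono_left nhdsWithin_le_nhds) hγ
  simp only [pow_zero, one_mul, Nat.cast_zero, zero_mul, Complex.exp_zero] at h1
  refine h1.congr fun T => ?_
  congr 1
  exact tsum_congr fun x => term_eq γ T x

end proof

/-- **Theorem.** Let `β` belong to an eigenform of weight `2`, `D` a set of positive integers, `L_t` the L-functions of the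
twists with characters `χ_t`, `a(t)` numbers with `|a(t)|² = c t^{1/2} L_t(1)` for `t ∈ D`, `c > 0`, and `γ > π/2`.

* `S_t(T)` converges absolutely for `T > 0`, and `c t^{1/2} exp(Re S_t(T)) → |a(t)|²` for `T → ∞`, `t ∈ D`.
* For `ε > 0`: `|a(t)| ≤ C t^{1/4+ε}` for all `t ∈ D` with some `C` iff `Re S_t(T) ≤ 2ε log t + C'` for all `t ∈ D` and all
  large `T` with some `C'`; iff this holds for every `t ∈ D` along some sequence `T_k → ∞`. -/
theorem result {M : ℕ} (lam : Nat.Primes → ℂ) (ψ : DirichletCharacter ℂ M) (S : Finset Nat.Primes)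
    (β : Nat.Primes → Fin 2 → ℂ) (hβ : Eigenform lam ψ S β) (D : Set ℕ) (hD : ∀ t ∈ D, 1 ≤ t)
    (m : ℕ → ℕ) (χ : ∀ t, DirichletCharacter ℂ (m t)) (L : ℕ → ℂ → ℂ)
    (hL : ∀ t ∈ D, IsTwist β (χ t) (L t)) (a : ℕ → ℂ) (c : ℝ) (hc : 0 < c)
    (hW : ∀ t ∈ D, ((‖a t‖ ^ 2 : ℝ) : ℂ) = ((c * (t : ℝ) ^ (1 / 2 : ℝ) : ℝ) : ℂ) * L t 1)
    (γ : ℝ) (hγ : Real.pi / 2 < γ) :
    (∀ t ∈ D, (∀ T : ℝ, 0 < T → Summable fun x => ‖term β (χ t) γ T x‖) ∧
      Tendsto (fun T : ℝ => c * (t : ℝ) ^ (1 / 2 : ℝ) * Real.exp (sum β (χ t) γ T).re) atTop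
        (𝓝 (‖a t‖ ^ 2))) ∧
    (∀ ε : ℝ, 0 < ε →
      ((∃ C : ℝ, ∀ t ∈ D, ‖a t‖ ≤ C * (t : ℝ) ^ (1 / 4 + ε)) ↔
        ∃ C' : ℝ, ∀ t ∈ D, ∀ᶠ T : ℝ in atTop, (sum β (χ t) γ T).re ≤ 2 * ε * Real.log t + C') ∧
      ((∃ C : ℝ, ∀ t ∈ D, ‖a t‖ ≤ C * (t : ℝ) ^ (1 / 4 + ε)) ↔
        ∃ C' : ℝ, ∀ t ∈ D, ∃ T : ℕ → ℝ, Tendsto T atTop atTop ∧
          ∀ k, (sum β (χ t) γ (T k)).re ≤ 2 * ε * Real.log t + C')) := by
  have hlim : ∀ t ∈ D, Tendsto (fun T : ℝ => c * (t : ℝ) ^ (1 / 2 : ℝ) *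
      Real.exp (sum β (χ t) γ T).re) atTop (𝓝 (‖a t‖ ^ 2)) := by
    intro t ht
    have ht0 : (0 : ℝ) < t := by exact_mod_cast hD t ht
    have h1 := (sum_lim hβ (hL t ht) hγ).norm
    simp_rw [Complex.norm_exp] at h1
    have h2 := h1.const_mul (c * (t : ℝ) ^ (1 / 2 : ℝ))
    have h3 : c * (t : ℝ) ^ (1 / 2 : ℝ) * ‖L t 1‖ = ‖a t‖ ^ 2 := by
      have h4 := congrArg (fun z : ℂ => ‖z‖) (hW t ht)
      simp only [norm_mul, Complex.norm_real, Real.norm_eq_abs] at h4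
      rw [abs_of_nonneg (by positivity), abs_of_nonneg hc.le, abs_of_nonneg (by positivity)] at h4
      exact h4.symm
    rwa [h3] at h2
  have hpow : ∀ t ∈ D, ∀ ε : ℝ, ((t : ℝ) ^ (1 / 4 + ε)) ^ 2 = (t : ℝ) ^ (1 / 2 : ℝ) *
      Real.exp (2 * ε * Real.log t) := by
    intro t ht ε
    have ht0 : (0 : ℝ) < t := by exact_mod_cast hD t ht
    rw [← Real.rpow_natCast, ← Real.rpow_mul ht0.le,
      show Real.exp (2 * ε * Real.log t) = (t : ℝ) ^ (2 * ε) by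
        rw [Real.rpow_def_of_pos ht0]; congr 1; ring, ← Real.rpow_add ht0]
    congr 1
    push_cast
    ring
  -- from the bound for the coefficients to the sums
  have hA : ∀ ε : ℝ, (∃ C : ℝ, ∀ t ∈ D, ‖a t‖ ≤ C * (t : ℝ) ^ (1 / 4 + ε)) →
      ∃ C' : ℝ, ∀ t ∈ D, ∀ᶠ T : ℝ in atTop, (sum β (χ t) γ T).re ≤ 2 * ε * Real.log t + C' := by
    rintro ε ⟨C, hC⟩
    set K : ℝ := (|C| + 1) ^ 2 / c with hK
    have hK0 : 0 < K := by positivity
    refine ⟨Real.log K, fun t ht => ?_⟩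
    have ht0 : (0 : ℝ) < t := by exact_mod_cast hD t ht
    have hq : 0 < c * (t : ℝ) ^ (1 / 2 : ℝ) := by positivity
    have h1 : ‖a t‖ ^ 2 < (|C| + 1) ^ 2 * ((t : ℝ) ^ (1 / 4 + ε)) ^ 2 := by
      rw [← mul_pow]
      refine pow_lt_pow_left₀ ((hC t ht).trans_lt ?_) (norm_nonneg _) two_ne_zero
      have h2 : 0 < (t : ℝ) ^ (1 / 4 + ε) := by positivity
      nlinarith [le_abs_self C]
    filter_upwards [(hlim t ht).eventually (gt_mem_nhds h1)] with T hT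
    rw [hpow t ht] at hT
    have h3 : Real.exp (sum β (χ t) γ T).re < K * Real.exp (2 * ε * Real.log t) := by
      have h4 : c * (t : ℝ) ^ (1 / 2 : ℝ) * Real.exp (sum β (χ t) γ T).re <
          c * (t : ℝ) ^ (1 / 2 : ℝ) * (K * Real.exp (2 * ε * Real.log t)) := by
        refine hT.trans_le (le_of_eq ?_)
        rw [hK]
        field_simp
      exact lt_of_mul_lt_mul_left h4 hq.le
    have h5 := Real.log_lt_log (Real.exp_pos _) h3
    rw [Real.log_exp, Real.log_mul hK0.ne' (Real.exp_ne_zero _), Real.log_exp] at h5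
    linarith
  -- from the sums along sequences to the coefficients
  have hB : ∀ ε : ℝ, (∃ C' : ℝ, ∀ t ∈ D, ∃ T : ℕ → ℝ, Tendsto T atTop atTop ∧
      ∀ k, (sum β (χ t) γ (T k)).re ≤ 2 * ε * Real.log t + C') →
      ∃ C : ℝ, ∀ t ∈ D, ‖a t‖ ≤ C * (t : ℝ) ^ (1 / 4 + ε) := by
    rintro ε ⟨C', hC'⟩
    refine ⟨√(c * Real.exp C'), fun t ht => ?_⟩
    have ht0 : (0 : ℝ) < t := by exact_mod_cast hD t ht
    obtain ⟨T, hT, h1⟩ := hC' t ht
    have h2 : ‖a t‖ ^ 2 ≤ c * Real.exp C' * ((t : ℝ) ^ (1 / 4 + ε)) ^ 2 := by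
      refine le_of_tendsto ((hlim t ht).comp hT) (Eventually.of_forall fun k => ?_)
      rw [hpow t ht]
      simp only [Function.comp_apply]
      calc c * (t : ℝ) ^ (1 / 2 : ℝ) * Real.exp (sum β (χ t) γ (T k)).re ≤
          c * (t : ℝ) ^ (1 / 2 : ℝ) * Real.exp (2 * ε * Real.log t + C') := by
            gcongr
            exact h1 k
        _ = _ := by
            rw [Real.exp_add]
            ring
    refine (pow_le_pow_iff_left₀ (norm_nonneg _) (by positivity) two_ne_zero).1 ?_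
    rw [mul_pow, Real.sq_sqrt (by positivity)]
    exact h2
  have hBC : ∀ ε : ℝ, (∃ C' : ℝ, ∀ t ∈ D, ∀ᶠ T : ℝ in atTop,
      (sum β (χ t) γ T).re ≤ 2 * ε * Real.log t + C') →
      ∃ C' : ℝ, ∀ t ∈ D, ∃ T : ℕ → ℝ, Tendsto T atTop atTop ∧
        ∀ k, (sum β (χ t) γ (T k)).re ≤ 2 * ε * Real.log t + C' := by
    rintro ε ⟨C', h⟩
    refine ⟨C', fun t ht => ?_⟩
    obtain ⟨T₁, hT₁⟩ := eventually_atTop.1 (h t ht)
    exact ⟨fun k => T₁ + k, tendsto_const_nhds.add_atTop tendsto_natCast_atTop_atTop,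
      fun k => hT₁ _ (by linarith [(Nat.cast_nonneg k : (0 : ℝ) ≤ k)])⟩
  exact ⟨fun t ht => ⟨fun T hT => term_summable hβ (χ t) γ hT, hlim t ht⟩, fun ε _ =>
    ⟨⟨hA ε, fun h => hB ε (hBC ε h)⟩, ⟨fun h => hBC ε (hA ε h), hB ε⟩⟩⟩

end Pool.Agent.Results.MP_af11aa_nt.OneSidedPrimeSums
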