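import Pool.Agent.Run7.h151.WT.Count
import Pool.Agent.Run7.h430.TW.KitUnif
import Pool.Agent.Run7.h430.TW.RProd

/-!
# Cusp forms of weight 3/2: the bound `r ^ (1/4 + ε)` near almost all orbits of Euler's function

`F` is a holomorphic cusp form of weight `3/2` on `Γ₀(N)` with a character `χ` modulo `N`, in Shimura's
normalisation (`IsCuspForm N χ F`; any level `N`, in the question `N = 24 p`), with the coefficients
`a(r)` (`Expansion F a`). Let `φ_k` be the `k`-th iterate of Euler's function, `φ_0(m) = m`. Let `f` be a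
positive multiplicative function of at most polynomial growth such that `f p ≤ M p` for the large primes
`p`, with different values at different large primes; for example the identity, Euler's function or the
sum of the divisors.

(1) There is `K(m)` tending to infinity such that for all but `o(M)` of the `m ≤ M`, uniformly in ALL cusp
forms `F` of weight `3/2` (all levels and characters) and all `C > 0` with `y^(3/4) |F| ≤ C`: for ALL
integers `r = b f(φ_k(m)) + h ≥ 1` with `k, b, |h| ≤ K(m)`, `b ≥ 1`, one has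
`|a(r)| ≤ C r ^ (1/4 + 1/(K(m) + 1))`.

(2) For `0 < η < 1/2`, every function `G` with steps bounded below by a positive constant and growth at most
`v ^ d` (for example `α v ^ d`) and `κ ≥ 0` with `d (1 - 2 η) + κ < 1` there is `K(m)` tending to infinity
such that for all but `o(M)` of the `m ≤ M`, uniformly in all `F`, `C`: for ALL `k, b ≤ K(m)`, `b ≥ 1`, and
ALL integers `r ≥ 1` with `|r - b G(v)| ≤ K(m) v ^ κ`, `v = f(φ_k(m))`, one has `|a(r)| ≤ C r ^ (1/4 + η)`.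

(3) For each `F` there is a similar statement on the products `r = A B` of two integers near two orbits.

The iterates of Euler's function are not multiplicative, and the values `φ_k(m)`, `m ≤ M`, form a thin set
and are taken with very large multiplicities; so this does not follow from the mean square of the
coefficients. The mean square is proved here in a form uniform in `N`, `χ`, `F` (`Run7/h151/WT`); the tool
for the orbits is `Pool.Agent.N760.IT` (starting files), in the form of helper430 (`Run7/h430/TW`).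
-/

set_option autoImplicit false

namespace Pool.Agent.Results.MP_af11aa_nt.TotientOrbits

open Finset Filter Topology

/-- The theta function `Σ_{n ∈ ℤ} e(n² z)`, `e(z) = exp(2 π i z)`. -/
noncomputable def theta (z : ℂ) : ℂ :=
  ∑' n : ℤ, Complex.exp (2 * Real.pi * Complex.I * (n : ℂ) ^ 2 * z)

/-- `F` is a cusp form of weight `3/2` on `Γ₀(N)` with character `χ` in Shimura's normalisation: it is
holomorphic on the upper half plane, `F(γ z) = χ(d) j(γ, z)³ F(z)` with `j(γ, z) = θ(γ z) / θ(z)` for all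
`γ` in `Γ₀(N)`, and `y^(3/4) |F(z)|` is bounded (for these functions this means that `F` vanishes at all
cusps). -/
structure IsCuspForm (N : ℕ) (χ : DirichletCharacter ℂ N) (F : ℂ → ℂ) : Prop where
  holo : DifferentiableOn ℂ F {z | 0 < z.im}
  transf : ∀ a b c d : ℤ, a * d - b * c = 1 → (N : ℤ) ∣ c → ∀ z : ℂ, 0 < z.im →
    theta z ^ 3 * F ((a * z + b) / (c * z + d)) =
      χ (d : ZMod N) * theta ((a * z + b) / (c * z + d)) ^ 3 * F z
  bounded : ∃ C : ℝ, ∀ z : ℂ, 0 < z.im → z.im ^ ((3 : ℝ) / 4) * ‖F z‖ ≤ C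

/-- `F(z) = Σ_r a(r) e(r z)` on the upper half plane. -/
def Expansion (F : ℂ → ℂ) (a : ℕ → ℂ) : Prop :=
  ∀ z : ℂ, 0 < z.im → HasSum (fun r : ℕ => a r * Complex.exp (2 * Real.pi * Complex.I * r * z)) (F z)

/-- `y^(3/4) |F(z)| ≤ C` on the upper half plane. -/
def SupNorm (F : ℂ → ℂ) (C : ℝ) : Prop := ∀ z : ℂ, 0 < z.im → z.im ^ ((3 : ℝ) / 4) * ‖F z‖ ≤ C

/-- A positive multiplicative function of at most polynomial growth, at most `M p` at the large primes `p` and with different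
values at different large primes. -/
structure Moderate (f : ℕ → ℕ) : Prop where
  mul : ∀ m n : ℕ, Nat.Coprime m n → f (m * n) = f m * f n
  pos : ∀ m : ℕ, 1 ≤ m → 1 ≤ f m
  growth : ∃ C D : ℕ, ∀ m : ℕ, 1 ≤ m → f m ≤ C * m ^ D
  prime : ∃ P M : ℕ, ∀ p : ℕ, P ≤ p → p.Prime → f p ≤ M * p ∧ ∀ q : ℕ, P ≤ q → q.Prime → f q = f p → q = p

/-- The steps of `G` are at least a positive constant, and `G` grows at most like `v ^ d`, `d ≥ 1`. -/
structure Expanding (G : ℕ → ℝ) (d : ℝ) : Prop where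
  one_le : 1 ≤ d
  step : ∃ a : ℝ, 0 < a ∧ ∀ v : ℕ, 1 ≤ v → a ≤ G (v + 1) - G v
  growth : ∃ C : ℝ, ∀ v : ℕ, 1 ≤ v → G v ≤ C * (v : ℝ) ^ d

/-- the value of `f` at the `k`-th iterate of Euler's function -/
def orb (f : ℕ → ℕ) (k m : ℕ) : ℕ := f (Nat.totient^[k] m)

open Classical in
/-- `P m m'` holds for almost all pairs `(m, m')`: in all boxes with large sides the proportion of the
exceptions is small. -/
def AlmostAllPairs (P : ℕ → ℕ → Prop) : Prop :=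
  ∀ δ : ℝ, 0 < δ → ∃ N₀ : ℕ, ∀ N N' : ℕ, N₀ ≤ N → N₀ ≤ N' →
    ((((Icc 1 N) ×ˢ (Icc 1 N')).filter (fun p => ¬ P p.1 p.2)).card : ℝ) ≤ δ * ((N : ℝ) * N')

theorem lm_of {f : ℕ → ℕ} (hf : Moderate f) : Pool.Agent.N733.TG.LM f := ⟨hf.mul, hf.pos, hf.growth, hf.prime⟩

theorem of_lm {f : ℕ → ℕ} (hf : Pool.Agent.N733.TG.LM f) : Moderate f := ⟨hf.mul, hf.pos, hf.growth, hf.prime⟩

theorem ex_of {G : ℕ → ℝ} {d : ℝ} (h : Expanding G d) : Pool.Agent.N733.TG.Expanding G d := ⟨h.one_le, h.step, h.growth⟩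

/-- the index set for the uniform statements: coefficients and sup norm of a form -/
structure Form where
  a : ℕ → ℂ
  C : ℝ
  pos : 0 < C
  sq : ∀ X : ℕ, 1 ≤ X → ∑ n ∈ range (X + 1), (‖a n‖ / C) ^ 2 ≤ Real.exp (4 * Real.pi) * (X : ℝ) ^ ((3 : ℝ) / 2)

theorem sq_of {F : ℂ → ℂ} {a : ℕ → ℂ} {C : ℝ} (ha : Expansion F a) (hC : 0 < C) (h : SupNorm F C) (X : ℕ) (hX : 1 ≤ X) :
    ∑ n ∈ range (X + 1), (‖a n‖ / C) ^ 2 ≤ Real.exp (4 * Real.pi) * (X : ℝ) ^ ((3 : ℝ) / 2) := by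
  have h1 := Run7.h151.WT.mean_square (f := F) (a := a) ha h hX
  have h2 : ∑ n ∈ range (X + 1), (‖a n‖ / C) ^ 2 = (∑ n ∈ range (X + 1), ‖a n‖ ^ 2) / C ^ 2 := by
    rw [Finset.sum_div]
    exact Finset.sum_congr rfl fun n _ => div_pow _ _ _
  rw [h2, div_le_iff₀ (by positivity)]
  refine h1.trans (le_of_eq (by ring))

theorem count_form (i : Form) {η : ℝ} (hη : 0 ≤ η) (hη1 : η < 1 / 2) (X : ℕ) :
    ({t : ℕ | 1 ≤ t ∧ t ≤ X ∧ ¬ ‖i.a t‖ ≤ i.C * (t : ℝ) ^ ((1 : ℝ) / 4 + η)}.ncard : ℝ) ≤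
      Run7.h151.WT.cst (Real.exp (4 * Real.pi)) η * (X : ℝ) ^ (1 - 2 * η) := by
  refine le_trans (le_of_eq ?_) (Run7.h151.WT.count_nat i.sq hη hη1 X)
  rw [← Set.ncard_coe_finset]
  congr 2
  ext t
  rw [Finset.coe_filter]
  simp only [Set.mem_ofPred_eq, mem_Icc, not_le]
  rw [and_assoc, lt_div_iff₀ i.pos, mul_comm]

theorem result :
    (∀ f : ℕ → ℕ, Moderate f → ∃ K : ℕ → ℕ, Tendsto K atTop atTop ∧ ∀ δ : ℝ, 0 < δ → ∃ M₀ : ℕ, ∀ M : ℕ, M₀ ≤ M →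
      ∀ (N : ℕ) (χ : DirichletCharacter ℂ N) (F : ℂ → ℂ) (a : ℕ → ℂ) (C : ℝ), IsCuspForm N χ F → Expansion F a →
      0 < C → SupNorm F C →
      ({m : ℕ | 1 ≤ m ∧ m ≤ M ∧ ¬ ∀ k ≤ K m, ∀ b : ℕ, 1 ≤ b → b ≤ K m → ∀ h : ℤ, |h| ≤ K m →
        ∀ r : ℕ, 1 ≤ r → (r : ℤ) = b * orb f k m + h →
          ‖a r‖ ≤ C * (r : ℝ) ^ ((1 : ℝ) / 4 + 1 / ((K m : ℝ) + 1))}.ncard : ℝ) ≤ δ * M) ∧
    (∀ η : ℝ, 0 < η → η < 1 / 2 → ∀ f : ℕ → ℕ, Moderate f → ∀ (G : ℕ → ℝ) (d : ℝ), Expanding G d →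
      ∀ κ : ℝ, 0 ≤ κ → d * (1 - 2 * η) + κ < 1 →
      ∃ K : ℕ → ℕ, Tendsto K atTop atTop ∧ ∀ δ : ℝ, 0 < δ → ∃ M₀ : ℕ, ∀ M : ℕ, M₀ ≤ M →
      ∀ (N : ℕ) (χ : DirichletCharacter ℂ N) (F : ℂ → ℂ) (a : ℕ → ℂ) (C : ℝ), IsCuspForm N χ F → Expansion F a →
      0 < C → SupNorm F C →
      ({m : ℕ | 1 ≤ m ∧ m ≤ M ∧ ¬ ∀ k ≤ K m, ∀ b : ℕ, 1 ≤ b → b ≤ K m → ∀ r : ℕ, 1 ≤ r →
        |(r : ℝ) - b * G (orb f k m)| ≤ K m * (orb f k m : ℝ) ^ κ →
          ‖a r‖ ≤ C * (r : ℝ) ^ ((1 : ℝ) / 4 + η)}.ncard : ℝ) ≤ δ * M) ∧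
    (∀ (N : ℕ) (χ : DirichletCharacter ℂ N) (F : ℂ → ℂ) (a : ℕ → ℂ), IsCuspForm N χ F → Expansion F a →
      ∀ η : ℝ, 0 < η → η < 1 / 2 → ∀ L : ℕ, ∀ f g : ℕ → ℕ, Moderate f → Moderate g →
      ∀ (G H : ℕ → ℝ) (d e : ℝ), Expanding G d → Expanding H e → ∀ κ : ℝ, 0 ≤ κ →
      d * (1 - η / (4 * ((L : ℝ) + 1) ^ 3)) + κ < 1 → e * (1 - η / (4 * ((L : ℝ) + 1) ^ 3)) + κ < 1 →
      ∃ K : ℕ → ℕ, Tendsto K atTop atTop ∧ AlmostAllPairs (fun m m' =>
        ∀ k ≤ K (min m m'), ∀ l ≤ K (min m m'), ∀ b c : ℕ, 1 ≤ b → b ≤ K (min m m') → 1 ≤ c → c ≤ K (min m m') →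
        ∀ A B : ℕ, 1 ≤ A → 1 ≤ B → A ≤ B ^ L → B ≤ A ^ L →
        |(A : ℝ) - b * G (orb f k m)| ≤ K (min m m') * (orb f k m : ℝ) ^ κ →
        |(B : ℝ) - c * H (orb g l m')| ≤ K (min m m') * (orb g l m' : ℝ) ^ κ →
          ‖a (A * B)‖ ≤ ((A : ℝ) * B) ^ ((1 : ℝ) / 4 + η))) ∧
    (Moderate (fun m => m) ∧ Moderate Nat.totient ∧ Moderate (fun m => ∑ d ∈ m.divisors, d)) ∧
    ∀ α d : ℝ, 0 < α → 1 ≤ d → Expanding (fun v => α * (v : ℝ) ^ d) d := by
  classical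
  refine ⟨fun f hf => ?_, fun η hη hη1 f hf G d hG κ hκ h1 => ?_,
    fun N χ F a hF ha η hη hη1 L f g hf hg G H d e hG hH κ hκ h1 h2 => ?_,
    ⟨of_lm Pool.Agent.N760.IT.lm_id, of_lm Pool.Agent.N733.TG.lm_totient, of_lm Pool.Agent.N733.TG.lm_sigma⟩,
    fun a d ha hd => ?_⟩
  · obtain ⟨K, hK, h1⟩ := Run7.h430.TW.orbit_slow_unif (ι := Form)
      (fun i j r => 1 ≤ r → ‖i.a r‖ ≤ i.C * (r : ℝ) ^ ((1 : ℝ) / 4 + 1 / ((j : ℝ) + 3)))
      (fun i u v n huv h hn => (h hn).trans (by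
        apply mul_le_mul_of_nonneg_left _ i.pos.le
        apply Real.rpow_le_rpow_of_exponent_le (by exact_mod_cast hn)
        have h3 : (u : ℝ) ≤ v := by exact_mod_cast huv
        have h4 : 1 / ((v : ℝ) + 3) ≤ 1 / ((u : ℝ) + 3) := one_div_le_one_div_of_le (by positivity) (by linarith)
        linarith))
      (fun j => by
        have hj : (0 : ℝ) ≤ j := Nat.cast_nonneg _
        have e0 : (0 : ℝ) < 1 / ((j : ℝ) + 3) := by positivity
        have e1 : 1 / ((j : ℝ) + 3) ≤ 1 / 3 := one_div_le_one_div_of_le (by norm_num) (by linarith)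
        refine ⟨1 - 2 * (1 / ((j : ℝ) + 3)), by linarith, by linarith,
          Run7.h151.WT.cst (Real.exp (4 * Real.pi)) (1 / ((j : ℝ) + 3)), fun i X hX => ?_⟩
        refine le_trans (Nat.cast_le.2 (Set.ncard_le_ncard ?_ ?_)) (count_form i e0.le (by linarith) X)
        · rintro t ⟨h2, h3, h4⟩
          exact ⟨h2, h3, fun h5 => h4 fun _ => h5⟩
        · exact (Set.finite_Iic X).subset fun t ht => ht.2.1)
      (lm_of hf)
    refine ⟨K, hK, fun δ hδ => ?_⟩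
    obtain ⟨N₀, hN₀⟩ := h1 δ hδ
    refine ⟨N₀, fun M hM N χ F a C hF ha hC hs => ?_⟩
    refine le_trans (Nat.cast_le.2 (Run7.h430.TW.ncard_le_card ?_)) (hN₀ M hM ⟨a, C, hC, sq_of ha hC hs⟩)
    intro m h k hk b hb1 hb u hu r hr he
    refine (h k hk b hb1 hb u hu r hr he hr).trans ?_
    apply mul_le_mul_of_nonneg_left _ hC.le
    apply Real.rpow_le_rpow_of_exponent_le (by exact_mod_cast hr)
    have h4 : 1 / ((K m : ℝ) + 3) ≤ 1 / ((K m : ℝ) + 1) := one_div_le_one_div_of_le (by positivity) (by linarith)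
    linarith
  · obtain ⟨K, hK, h2⟩ := Run7.h430.TW.kit_unif (lm_of hf) (ex_of hG) (s := 1 - 2 * η)
      (by linarith) hκ h1 (Run7.h151.WT.cst (Real.exp (4 * Real.pi)) η)
    refine ⟨K, hK, fun δ hδ => ?_⟩
    obtain ⟨N₀, hN₀⟩ := h2 δ hδ
    refine ⟨N₀, fun M hM N χ F a C hF ha hC hs => ?_⟩
    have h3 := hN₀ M hM ⟨fun r => ‖a r‖ ≤ C * (r : ℝ) ^ ((1 : ℝ) / 4 + η), fun X hX =>
      count_form ⟨a, C, hC, sq_of ha hC hs⟩ hη.le hη1 X⟩
    refine le_trans (Nat.cast_le.2 (Run7.h430.TW.ncard_le_card ?_)) h3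
    intro m h k hk b hb1 hb r hr hw
    exact h k hk b hb1 hb r hr hw
  · obtain ⟨C, hC⟩ := hF.bounded
    obtain ⟨P, hP⟩ : ∃ P : Set ℕ, P = {r : ℕ | (r : ℝ) ^ ((1 : ℝ) / 4 + η) < ‖a r‖} := ⟨_, rfl⟩
    obtain ⟨X₀, hX₀, hbox⟩ := Run7.h430.TW.RPairs.prod_box (P := P) (s := 1 - 2 * η) (by linarith) (by linarith) (fun ε hε => by
      refine ⟨Run7.h151.WT.cst (Real.exp (4 * Real.pi) * C ^ 2) η, fun X hX => ?_⟩
      have h3 := Run7.h151.WT.count_nat (u := fun n => ‖a n‖) (B := Real.exp (4 * Real.pi) * C ^ 2)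
        (fun X hX => Run7.h151.WT.mean_square (f := F) (a := a) ha hC hX) hη.le hη1 X
      have hX1 : (1 : ℝ) ≤ X := by exact_mod_cast hX
      have h4 : 0 ≤ Run7.h151.WT.cst (Real.exp (4 * Real.pi) * C ^ 2) η := by
        unfold Run7.h151.WT.cst
        have h5 := Run7.h151.WT.two_pos_aux hη1
        apply div_nonneg (by positivity) (by linarith)
      refine le_trans (le_of_eq ?_) (h3.trans (mul_le_mul_of_nonneg_left
        (Real.rpow_le_rpow_of_exponent_le hX1 (by linarith)) h4))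
      congr 2
      rw [hP]
      ext t
      simp only [mem_filter, mem_Ioc, mem_Icc, Set.mem_ofPred_eq]
      constructor
      · rintro ⟨⟨h6, h7⟩, h8⟩
        exact ⟨⟨h6, h7⟩, h8⟩
      · rintro ⟨⟨h6, h7⟩, h8⟩
        exact ⟨⟨h6, h7⟩, h8⟩) L
    have e1 : (1 - (1 - 2 * η)) / 2 = η := by ring
    rw [e1] at hbox
    obtain ⟨K, hK, h3⟩ := Run7.h430.TW.RPairs.pairs_kit (Run7.h430.TW.RPairs.rel_prod P L) hη (by linarith) hX₀ hbox (lm_of hf)
      (lm_of hg) (ex_of hG) (ex_of hH) hκ h1 h2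
    refine ⟨K, hK, fun δ hδ => ?_⟩
    obtain ⟨N₀, hN₀⟩ := h3 δ hδ
    refine ⟨N₀, fun M M' hM hM' => le_trans (Nat.cast_le.2 (Run7.h430.TW.Pairs.card_mono2 ?_)) (hN₀ M M' hM hM')⟩
    intro p _ hp hcon
    apply hp
    intro k hk l hl b c hb1 hb hc1 hc A B hA hB hAB hBA hw1 hw2
    by_contra hbad
    refine hcon k hk l hl b c hb1 hb hc1 hc A B hw1 hw2 ⟨hA, hB, hAB, hBA, ?_⟩
    rw [hP, Set.mem_ofPred_eq]
    push_cast
    exact not_le.1 hbad
  · obtain ⟨h1, h2, h3⟩ := Pool.Agent.N733.TG.expanding_pow ha hd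
    exact ⟨h1, h2, h3⟩

end Pool.Agent.Results.MP_af11aa_nt.TotientOrbits
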